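import Pool.Agent.Helper47.BL.Defs

set_option autoImplicit false

/-! # Row SM: smooth numbers near the scale `exp (c sqrt (log x log log x))` -/

namespace Pool.Agent.Helper47.BL

open Finset Pool.Agent.Helper44.BB

theorem sm_ev1 (δ : ℝ) (hδ : 0 < δ) : ∀ᶠ u : ℝ in Filter.atTop, √(Real.exp u * u) ≤ δ * Real.exp u := by
  have h := Real.tendsto_pow_mul_exp_neg_atTop_nhds_zero 1
  have h2 := h.eventually (Iio_mem_nhds (show (0 : ℝ) < δ ^ 2 by positivity))
  filter_upwards [h2, Filter.eventually_ge_atTop 0] with u hu hu0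
  have hu' : u ^ 1 * Real.exp (-u) < δ ^ 2 := hu
  rw [pow_one] at hu'
  rw [Real.sqrt_le_iff]
  refine ⟨by positivity, ?_⟩
  have e : Real.exp u * u = (u * Real.exp (-u)) * (Real.exp u) ^ 2 := by
    rw [Real.exp_neg]
    field_simp
  rw [e, mul_pow]
  exact mul_le_mul_of_nonneg_right hu'.le (by positivity)

theorem sm_ev2 (δ : ℝ) (hδ : 0 < δ) : ∀ᶠ u : ℝ in Filter.atTop, Real.log u ≤ δ * u := by
  have h := Real.isLittleO_log_id_atTop.bound hδ
  filter_upwards [h, Filter.eventually_ge_atTop 0] with u hu hu0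
  rw [id, Real.norm_of_nonneg hu0] at hu
  exact (le_abs_self _).trans hu

theorem sm_ev (c C ε : ℝ) (hc : 0 < c) (hC : 0 ≤ C) (hε : 0 < ε) (hε1 : ε < 1)
    (hh : 2 * c ^ 2 < (1 - ε) ^ 4) : ∀ᶠ u : ℝ in Filter.atTop, 3 ≤ u ∧
    5 * c * √(Real.exp u * u) ≤ ε * (1 - ε) ^ 2 * Real.exp u ∧
    c * √(Real.exp u * u) + Real.log 2 ≤ ε * (1 - ε) * Real.exp u ∧
    (1 - ε) * u / 2 + 1 + Real.log (C * (3 + u) + 1) ≤
      Real.log ((1 - ε) ^ 3 / (5 * c)) + (u - Real.log u) / 2 ∧
    Real.log 2 ≤ ((1 - ε) ^ 4 - 2 * c ^ 2) * √(Real.exp u * u) / (10 * c) ∧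
    1 ≤ c * √(Real.exp u * u) := by
  have he : 0 < 1 - ε := by linarith
  have a1 := sm_ev1 (ε * (1 - ε) ^ 2 / (5 * c)) (by positivity)
  have a2 := sm_ev1 (ε * (1 - ε) / (2 * c)) (by positivity)
  have a3 := Real.tendsto_exp_atTop.eventually_ge_atTop (Real.log 2 * 2 / (ε * (1 - ε)))
  have a4 := sm_ev2 (ε / 6) (by positivity)
  set M : ℝ := 1 + Real.log (2 * (C + 1)) - Real.log ((1 - ε) ^ 3 / (5 * c)) with hM
  have a5 := Filter.eventually_ge_atTop (M * 4 / ε)
  have hd : 0 < (1 - ε) ^ 4 - 2 * c ^ 2 := by linarith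
  have a6 := Filter.eventually_ge_atTop (Real.log 2 * (10 * c) / ((1 - ε) ^ 4 - 2 * c ^ 2))
  have a7 := Filter.eventually_ge_atTop (1 / c)
  filter_upwards [a1, a2, a3, a4, a5, a6, a7, Filter.eventually_ge_atTop 3] with u b1 b2 b3 b4 b5 b6 b7 b8
  have hu : 0 < u := by linarith
  have hT : u ≤ √(Real.exp u * u) := by
    apply Real.le_sqrt_of_sq_le
    have : u ≤ Real.exp u := by linarith [Real.add_one_le_exp u]
    nlinarith
  refine ⟨b8, ?_, ?_, ?_, ?_, ?_⟩
  · calc 5 * c * √(Real.exp u * u) ≤ 5 * c * (ε * (1 - ε) ^ 2 / (5 * c) * Real.exp u) := by gcongr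
      _ = ε * (1 - ε) ^ 2 * Real.exp u := by field_simp
  · have c1 : c * √(Real.exp u * u) ≤ ε * (1 - ε) * Real.exp u / 2 := by
      calc c * √(Real.exp u * u) ≤ c * (ε * (1 - ε) / (2 * c) * Real.exp u) := by gcongr
        _ = ε * (1 - ε) * Real.exp u / 2 := by field_simp
    have c2 : Real.log 2 ≤ ε * (1 - ε) * Real.exp u / 2 := by
      have hp : 0 < ε * (1 - ε) := by positivity
      rw [div_le_iff₀ hp] at b3
      linarith
    linarith
  · have c1 : Real.log (C * (3 + u) + 1) ≤ Real.log (2 * (C + 1)) + Real.log u := by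
      rw [← Real.log_mul (by positivity) (by positivity)]
      apply Real.log_le_log (by positivity)
      nlinarith
    have c2 : M ≤ ε * u / 4 := by
      rw [div_le_iff₀ hε] at b5
      linarith
    have c3 : Real.log u ≤ ε / 6 * u := b4
    rw [hM] at c2
    linarith
  · rw [div_le_iff₀ hd] at b6
    rw [le_div_iff₀ (by positivity)]
    calc Real.log 2 * (10 * c) ≤ u * ((1 - ε) ^ 4 - 2 * c ^ 2) := b6
      _ ≤ √(Real.exp u * u) * ((1 - ε) ^ 4 - 2 * c ^ 2) := by gcongr
      _ = _ := by ring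
  · rw [div_le_iff₀ hc] at b7
    calc (1 : ℝ) ≤ u * c := b7
      _ ≤ √(Real.exp u * u) * c := by gcongr
      _ = _ := by ring

theorem st_SM (hSK : ST_SK) (hMER : ST_MER) : ST_SM := by
  intro c hc hc2
  obtain ⟨C, hC, hM⟩ := hMER
  set ε : ℝ := (1 - 2 * c ^ 2) / 8 with hεd
  have hε : 0 < ε := by
    rw [hεd]
    linarith
  have hε1 : ε < 1 := by
    rw [hεd]
    nlinarith [sq_nonneg c]
  have hε8 : ε ≤ 1 / 8 := by
    rw [hεd]
    nlinarith [sq_nonneg c]
  have he : 0 < 1 - ε := by linarith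
  have hh : 2 * c ^ 2 < (1 - ε) ^ 4 := by
    have h1 : 1 - 4 * ε ≤ (1 - ε) ^ 4 := by
      have := one_add_mul_le_pow (show (-2 : ℝ) ≤ -ε by linarith) 4
      have e : (1 + -ε) = 1 - ε := by ring
      rw [e] at this
      push_cast at this
      linarith
    have h2 : 4 * ε = (1 - 2 * c ^ 2) / 2 := by
      rw [hεd]
      ring
    linarith
  have hev := sm_ev c C ε hc hC hε hε1 hh
  have hev2 : ∀ᶠ x : ℝ in Filter.atTop, _ :=
    (Real.tendsto_log_atTop.comp Real.tendsto_log_atTop).eventually hev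
  obtain ⟨x₁, hx₁⟩ := Filter.eventually_atTop.1 hev2
  refine ⟨max x₁ 3, ?_⟩
  intro x v Z A hx hv1 hv5 hZ hA
  have hxx : x₁ ≤ x := (le_max_left _ _).trans hx
  have hx3 : 3 ≤ x := (le_max_right _ _).trans hx
  obtain ⟨f0, f1, f2, f3, f4, f5⟩ := hx₁ x hxx
  simp only [Function.comp] at f0 f1 f2 f3 f4 f5
  set u : ℝ := Real.log (Real.log x) with hu
  have hL0 : 0 < Real.log x := Real.log_pos (by linarith)
  have hL : Real.exp u = Real.log x := Real.exp_log hL0
  rw [hL] at f1 f2 f4 f5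
  set L : ℝ := Real.log x with hLd
  set T : ℝ := √(L * u) with hT
  have hu0 : 0 < u := by linarith
  have hT0 : 0 < T := Real.sqrt_pos.2 (by positivity)
  have hTT : T ^ 2 = L * u := Real.sq_sqrt (by positivity)
  have hyy : yy c x = Real.exp (c * T) := rfl
  have hv0 : 0 < v := by linarith
  -- the size of Z
  have hy5 : 0 < yy c x ^ (5 : ℕ) := by
    rw [hyy]
    positivity
  have hZ0 : 0 < Z := by
    by_contra h
    have : Z * yy c x ^ (5 : ℕ) ≤ 0 := mul_nonpos_of_nonpos_of_nonneg (not_lt.1 h) hy5.le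
    linarith
  have hlogZ : (1 - ε) * L ≤ Real.log Z := by
    have h1 : Real.log x ≤ Real.log (Z * yy c x ^ (5 : ℕ)) := Real.log_le_log (by linarith) hZ
    rw [Real.log_mul hZ0.ne' hy5.ne', Real.log_pow, hyy, Real.log_exp] at h1
    push_cast at h1
    have h2 : ε * (1 - ε) ^ 2 * L ≤ ε * L := by
      have : (1 - ε) ^ 2 ≤ 1 := pow_le_one₀ he.le (by linarith)
      calc ε * (1 - ε) ^ 2 * L ≤ ε * 1 * L := by gcongr
        _ = ε * L := by ring
    rw [← hLd] at h1
    linarith
  -- Y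
  set Y : ℝ := yy c x ^ v with hY
  have hYe : Y = Real.exp (v * (c * T)) := by
    rw [hY, hyy, ← Real.exp_mul, mul_comm]
  have hlogY : Real.log Y = v * (c * T) := by rw [hYe, Real.log_exp]
  have hlogY1 : 1 ≤ Real.log Y := by
    rw [hlogY]
    calc (1 : ℝ) ≤ 1 * (c * T) := by linarith
      _ ≤ v * (c * T) := by gcongr
  have hlogY0 : 0 < Real.log Y := by linarith
  have hYexp : Real.exp 1 ≤ Y := by
    rw [hYe, ← hlogY]
    exact Real.exp_le_exp.2 hlogY1
  have hc1 : c < 1 := by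
    by_contra h
    have h1 : 1 ≤ c ^ 2 := one_le_pow₀ (not_lt.1 h)
    linarith
  have huL : u ≤ L := by
    rw [← hL]
    linarith [Real.add_one_le_exp u]
  have hTL : T ≤ L := by
    rw [hT]
    apply Real.sqrt_le_left _ |>.2 |> fun h => h
    · rw [sq]
      gcongr
    · positivity
  have hllY : Real.log (Real.log Y) ≤ 2 + u := by
    have h1 : Real.log Y ≤ 5 * L := by
      rw [hlogY]
      have : c * T ≤ 1 * L := by gcongr
      rw [one_mul] at this
      gcongr
    have h2 : Real.log Y ≤ Real.exp 2 * L := by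
      have : (5 : ℝ) ≤ Real.exp 2 := by
        have h3 : Real.exp 2 = Real.exp 1 * Real.exp 1 := by
          rw [← Real.exp_add]
          norm_num
        rw [h3]
        have h4 : (2.5 : ℝ) ≤ Real.exp 1 := by linarith [Real.exp_one_gt_d9]
        calc (5 : ℝ) ≤ 2.5 * 2.5 := by norm_num
          _ ≤ _ := by gcongr
      refine h1.trans ?_
      gcongr
    calc Real.log (Real.log Y) ≤ Real.log (Real.exp 2 * L) := Real.log_le_log hlogY0 h2
      _ = 2 + u := by
        rw [Real.log_mul (Real.exp_pos _).ne' hL0.ne', Real.log_exp]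
  -- the sum of the reciprocals
  set s' : ℝ := C * (3 + u) + 1 with hs'
  have hs'1 : 1 ≤ s' := by
    rw [hs']
    have : 0 ≤ C * (3 + u) := by positivity
    linarith
  have hs : ∑ p ∈ pr Y, 1 / (p : ℝ) ≤ s' := by
    refine (hM Y hYexp).trans ?_
    rw [hs']
    have : C * (1 + Real.log (Real.log Y)) ≤ C * (3 + u) := by
      apply mul_le_mul_of_nonneg_left _ hC
      linarith
    linarith
  -- k
  set k : ℕ := ⌊(1 - ε) * Real.log Z / Real.log Y⌋₊ with hk
  have hkl : (1 - ε) ^ 3 * (L / T) / (v * c) ≤ k := by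
    have h1 : (1 - ε) * Real.log Z / Real.log Y - 1 < k := Nat.sub_one_lt_floor _
    have h2 : (1 - ε) ^ 2 * (L / T) / (v * c) ≤ (1 - ε) * Real.log Z / Real.log Y := by
      rw [hlogY, div_le_div_iff₀ (by positivity) (by positivity)]
      have : (1 - ε) ^ 2 * (L / T) * (v * (c * T)) = (1 - ε) * ((1 - ε) * L) * (v * c) := by
        field_simp
      rw [this]
      gcongr
    have h3 : 1 ≤ ε * ((1 - ε) ^ 2 * (L / T) / (v * c)) := by
      rw [← mul_div_assoc, le_div_iff₀ (by positivity), one_mul]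
      have : ε * ((1 - ε) ^ 2 * (L / T)) = (ε * (1 - ε) ^ 2 * L) / T := by
        field_simp
      rw [this, le_div_iff₀ hT0]
      calc v * c * T ≤ 5 * c * T := by gcongr
        _ ≤ _ := f1
    have h4 : (1 - ε) ^ 3 * (L / T) / (v * c) = (1 - ε) ^ 2 * (L / T) / (v * c) -
        ε * ((1 - ε) ^ 2 * (L / T) / (v * c)) := by ring
    linarith
  have hRT : L / T = T / u := by
    rw [div_eq_div_iff hT0.ne' hu0.ne', ← sq, hTT]
  have hLT0 : 0 < L / T := by positivity
  have hk0 : (0 : ℝ) < k := lt_of_lt_of_le (by positivity) hkl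
  have hlogk : Real.log ((1 - ε) ^ 3 / (5 * c)) + (u - Real.log u) / 2 ≤ Real.log k := by
    have h1 : (1 - ε) ^ 3 / (5 * c) * (L / T) ≤ k := by
      refine le_trans ?_ hkl
      have : (1 - ε) ^ 3 * (L / T) / (v * c) = (1 - ε) ^ 3 / (v * c) * (L / T) := by ring
      rw [this]
      gcongr
    have h2 : Real.log (L / T) = (u - Real.log u) / 2 := by
      have h3 : Real.log (T ^ 2) = Real.log (L * u) := by rw [hTT]
      rw [Real.log_pow, Real.log_mul hL0.ne' hu0.ne'] at h3
      push_cast at h3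
      rw [Real.log_div hL0.ne' hT0.ne']
      have : Real.log L = u := hu.symm
      linarith
    rw [← h2, ← Real.log_mul (by positivity) (by positivity)]
    exact Real.log_le_log (by positivity) h1
  -- lam
  have hlam : (1 - ε) * u / 2 + 1 ≤ Real.log (k / s') := by
    rw [Real.log_div hk0.ne' (by linarith)]
    linarith
  have hlam1 : 1 ≤ (k : ℝ) / s' := by
    have h1 : 0 < Real.log (k / s') := lt_of_lt_of_le (by positivity) hlam
    exact ((Real.log_pos_iff (by positivity)).1 h1).le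
  -- the two parts
  classical
  set A₁ := A.filter (fun a : ℕ => (a : ℝ) ≤ Z ^ (1 - ε)) with hA₁
  set A₂ := A.filter (fun a : ℕ => ¬ (a : ℝ) ≤ Z ^ (1 - ε)) with hA₂
  have hsplit : (A.card : ℝ) = A₁.card + A₂.card := by
    rw [hA₁, hA₂]
    exact_mod_cast (card_filter_add_card_filter_not _).symm
  have hhalf : ∀ w : ℝ, c * T / v + Real.log 2 ≤ w → Real.exp (-w) ≤ yy c x ^ (-(1 / v)) / 2 := by
    intro w hw
    have : yy c x ^ (-(1 / v)) / 2 = Real.exp (-(c * T / v + Real.log 2)) := by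
      rw [hyy, ← Real.exp_mul, neg_add, Real.exp_add, Real.exp_neg (Real.log 2), Real.exp_log (by norm_num)]
      rw [div_eq_mul_inv]
      congr 2
      ring
    rw [this]
    exact Real.exp_le_exp.2 (by linarith)
  have hcTv : c * T / v ≤ c * T := div_le_self (by positivity) hv1
  have h₁ : (A₁.card : ℝ) ≤ Z * (yy c x ^ (-(1 / v)) / 2) := by
    have h1 : A₁ ⊆ Icc 1 ⌊Z ^ (1 - ε)⌋₊ := by
      intro a ha
      rw [hA₁, mem_filter] at ha
      rw [mem_Icc]
      exact ⟨Nat.one_le_iff_ne_zero.2 (hA a ha.1).1.ne_zero, Nat.le_floor ha.2⟩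
    have h2 : (A₁.card : ℝ) ≤ Z ^ (1 - ε) := by
      have h3 := card_le_card h1
      rw [Nat.card_Icc, Nat.add_sub_cancel] at h3
      calc (A₁.card : ℝ) ≤ (⌊Z ^ (1 - ε)⌋₊ : ℝ) := by exact_mod_cast h3
        _ ≤ _ := Nat.floor_le (by positivity)
    refine h2.trans ?_
    have h4 : Z ^ (1 - ε) = Z * Real.exp (-(ε * Real.log Z)) := by
      rw [Real.rpow_sub hZ0, Real.rpow_one, Real.exp_neg, div_eq_mul_inv]
      congr 2
      rw [Real.rpow_def_of_pos hZ0, mul_comm]
    rw [h4]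
    apply mul_le_mul_of_nonneg_left _ hZ0.le
    apply hhalf
    have h5 : ε * (1 - ε) * L ≤ ε * Real.log Z := by
      rw [mul_assoc]
      exact mul_le_mul_of_nonneg_left hlogZ hε.le
    linarith
  have h₂ : (A₂.card : ℝ) ≤ Z * (yy c x ^ (-(1 / v)) / 2) := by
    have h1 := hSK Z Y (k / s') k A₂ hZ0.le hlam1 (by
      intro a ha
      rw [hA₂, mem_filter] at ha
      obtain ⟨g1, g2, g3⟩ := hA a ha.1
      refine ⟨g1, g2, ?_, g3⟩
      have h2 : (a : ℝ) ≤ Y ^ a.primeFactors.card := by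
        have h3 : (a : ℝ) = ∏ p ∈ a.primeFactors, (p : ℝ) := by
          rw [← Nat.cast_prod, Nat.prod_primeFactors_of_squarefree g1]
        rw [h3]
        calc ∏ p ∈ a.primeFactors, (p : ℝ) ≤ ∏ _p ∈ a.primeFactors, Y := by
              apply prod_le_prod
              · intro p _
                positivity
              · intro p hp
                exact g3 p (Nat.prime_of_mem_primeFactors hp) (Nat.dvd_of_mem_primeFactors hp)
          _ = Y ^ a.primeFactors.card := by rw [prod_const]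
      have h4 : Z ^ (1 - ε) < Y ^ a.primeFactors.card := lt_of_lt_of_le (not_le.1 ha.2) h2
      have h5 := Real.log_lt_log (by positivity) h4
      rw [Real.log_rpow hZ0, Real.log_pow] at h5
      rw [hk]
      have h6 : (1 - ε) * Real.log Z / Real.log Y ≤ a.primeFactors.card := by
        rw [div_le_iff₀ hlogY0]
        exact h5.le
      exact Nat.floor_le_of_le h6)
    refine h1.trans ?_
    apply mul_le_mul_of_nonneg_left _ hZ0.le
    have hlampos : 0 < (k : ℝ) / s' := by linarith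
    have h2 : Real.exp (k / s' * ∑ p ∈ pr Y, 1 / (p : ℝ)) / (k / s') ^ k ≤
        Real.exp (-(k * (Real.log (k / s') - 1))) := by
      have h3 : (k : ℝ) / s' * ∑ p ∈ pr Y, 1 / (p : ℝ) ≤ k := by
        calc (k : ℝ) / s' * ∑ p ∈ pr Y, 1 / (p : ℝ) ≤ k / s' * s' := by gcongr
          _ = k := by field_simp
      have h4 : ((k : ℝ) / s') ^ k = Real.exp (k * Real.log (k / s')) := by
        rw [← Real.rpow_natCast, Real.rpow_def_of_pos hlampos, mul_comm]
      rw [h4, ← Real.exp_sub]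
      apply Real.exp_le_exp.2
      linarith
    refine h2.trans (hhalf _ ?_)
    have h5 : (1 - ε) ^ 3 * (L / T) / (v * c) * ((1 - ε) * u / 2) ≤ k * (Real.log (k / s') - 1) := by
      apply mul_le_mul hkl (by linarith) (by positivity) hk0.le
    refine le_trans ?_ h5
    have h6 : (1 - ε) ^ 3 * (L / T) / (v * c) * ((1 - ε) * u / 2) = (1 - ε) ^ 4 * T / (2 * (v * c)) := by
      rw [hRT]
      field_simp
    rw [h6]
    have h7 : (1 - ε) ^ 4 * T / (2 * (v * c)) - c * T / v = ((1 - ε) ^ 4 - 2 * c ^ 2) * T / (2 * c * v) := by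
      field_simp
    have h8 : ((1 - ε) ^ 4 - 2 * c ^ 2) * T / (10 * c) ≤ ((1 - ε) ^ 4 - 2 * c ^ 2) * T / (2 * c * v) := by
      apply div_le_div_of_nonneg_left
      · have : 0 ≤ (1 - ε) ^ 4 - 2 * c ^ 2 := by linarith
        positivity
      · positivity
      · have := mul_le_mul_of_nonneg_left hv5 (show (0 : ℝ) ≤ 2 * c by positivity)
        linarith
    linarith
  rw [hsplit]
  linarith

end Pool.Agent.Helper47.BL
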